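import Mathlib

set_option autoImplicit false

/-! Triangulations of a convex polygon: basic facts. -/

namespace Pool.Agent.Q151.Tri

open Finset

/-- a diagonal `{i, j}` of the `n`-gon with the vertices `0, ..., n-1`, given as `(i, j)` with
`i < j` -/
def IsDiag (n : ℕ) (d : ℕ × ℕ) : Prop := d.1 + 2 ≤ d.2 ∧ d.2 < n ∧ ¬ (d.1 = 0 ∧ d.2 + 1 = n)

/-- two diagonals cross -/
def Cross (d e : ℕ × ℕ) : Prop :=
  (d.1 < e.1 ∧ e.1 < d.2 ∧ d.2 < e.2) ∨ (e.1 < d.1 ∧ d.1 < e.2 ∧ e.2 < d.2)

/-- a triangulation: `n - 3` pairwise noncrossing diagonals -/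
structure IsTri (n : ℕ) (T : Finset (ℕ × ℕ)) : Prop where
  diag : ∀ d ∈ T, IsDiag n d
  nc : ∀ d ∈ T, ∀ e ∈ T, ¬ Cross d e
  card : T.card = n - 3

/-- the number of members inside an interval -/
def M (T : Finset (ℕ × ℕ)) (i j : ℕ) : ℕ := (T.filter (fun d => i ≤ d.1 ∧ d.2 ≤ j)).card

lemma split {T : Finset (ℕ × ℕ)} (h2 : ∀ d ∈ T, d.1 + 2 ≤ d.2)
    (hnc : ∀ d ∈ T, ∀ e ∈ T, ¬ Cross d e) {i j : ℕ} (hij : i + 2 ≤ j) :
    ∃ k, i < k ∧ k < j ∧
      M T i j ≤ (if (i, j) ∈ T then 1 else 0) + M T i k + M T k j := by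
  classical
  obtain ⟨k, hk⟩ : ∃ k, k = (insert (i + 1)
    ((T.filter (fun d => d.1 = i ∧ d.2 < j)).image Prod.snd)).max' (by simp) := ⟨_, rfl⟩
  have hkmem : k ∈ insert (i + 1) ((T.filter (fun d => d.1 = i ∧ d.2 < j)).image Prod.snd) := by
    rw [hk]; exact Finset.max'_mem _ _
  have hkmax : ∀ b, (i, b) ∈ T → b < j → b ≤ k := by
    intro b hb hbj
    rw [hk]
    apply Finset.le_max'
    rw [mem_insert, mem_image]
    right
    exact ⟨(i, b), by rw [mem_filter]; exact ⟨hb, rfl, hbj⟩, rfl⟩
  have hk1 : i + 1 ≤ k := by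
    rw [hk]
    apply Finset.le_max'
    exact mem_insert_self _ _
  have hkcase : k = i + 1 ∨ ((i, k) ∈ T ∧ k < j) := by
    rw [mem_insert, mem_image] at hkmem
    rcases hkmem with h | ⟨⟨a, b⟩, hd, hdk⟩
    · left; exact h
    · right
      rw [mem_filter] at hd
      obtain ⟨hd1, hd2, hd3⟩ := hd
      simp only at hd2 hd3 hdk
      subst hd2
      subst hdk
      exact ⟨hd1, hd3⟩
  have hkj : k < j := by
    rcases hkcase with h | h
    · omega
    · exact h.2
  refine ⟨k, by omega, hkj, ?_⟩
  have hsub : T.filter (fun d => i ≤ d.1 ∧ d.2 ≤ j) ⊆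
      (T.filter (fun d => d = (i, j))) ∪ (T.filter (fun d => i ≤ d.1 ∧ d.2 ≤ k)) ∪
        (T.filter (fun d => k ≤ d.1 ∧ d.2 ≤ j)) := by
    rintro ⟨a, b⟩ hab
    rw [mem_filter] at hab
    obtain ⟨hT, hia, hbj⟩ := hab
    simp only at hia hbj
    have hab2 := h2 _ hT
    simp only at hab2
    rw [mem_union, mem_union, mem_filter, mem_filter, mem_filter]
    rcases Nat.lt_or_ge i a with hia' | hia'
    · -- `a > i`
      rcases hkcase with h | h
      · right
        exact ⟨hT, by simp only; omega, hbj⟩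
      · have hc := hnc _ h.1 _ hT
        unfold Cross at hc
        simp only at hc
        rcases Nat.lt_or_ge a k with hak | hak
        · left; right
          exact ⟨hT, hia, by simp only; omega⟩
        · right
          exact ⟨hT, hak, hbj⟩
    · have e : a = i := by omega
      subst e
      rcases Nat.lt_or_ge b j with hb | hb
      · left; right
        exact ⟨hT, hia, hkmax b hT hb⟩
      · left; left
        have : b = j := by omega
        subst this
        exact ⟨hT, rfl⟩
  unfold M
  refine (card_le_card hsub).trans ?_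
  refine (card_union_le _ _).trans ?_
  have h3 := card_union_le (T.filter (fun d => d = (i, j)))
    (T.filter (fun d => i ≤ d.1 ∧ d.2 ≤ k))
  have h4 : (T.filter (fun d => d = (i, j))).card = if (i, j) ∈ T then 1 else 0 := by
    split_ifs with h
    · rw [card_eq_one]
      refine ⟨(i, j), ?_⟩
      ext d
      rw [mem_filter, mem_singleton]
      constructor
      · exact fun hd => hd.2
      · rintro rfl; exact ⟨h, rfl⟩
    · rw [card_eq_zero, filter_eq_empty_iff]
      rintro d hd rfl
      exact h hd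
  omega

lemma M_le {T : Finset (ℕ × ℕ)} (h2 : ∀ d ∈ T, d.1 + 2 ≤ d.2)
    (hnc : ∀ d ∈ T, ∀ e ∈ T, ¬ Cross d e) :
    ∀ m i j : ℕ, j = i + 1 + m → M T i j ≤ m := by
  intro m
  induction m using Nat.strong_induction_on with
  | _ m ih =>
    intro i j hj
    rcases Nat.eq_zero_or_pos m with hm | hm
    · subst hm
      unfold M
      rw [Nat.le_zero, card_eq_zero, filter_eq_empty_iff]
      intro d hd h
      have := h2 d hd
      omega
    · obtain ⟨k, hik, hkj, hM⟩ := split h2 hnc (i := i) (j := j) (by omega)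
      have h3 := ih (k - i - 1) (by omega) i k (by omega)
      have h4 := ih (j - k - 1) (by omega) k j (by omega)
      split_ifs at hM <;> omega

lemma card_le {n : ℕ} (hn : 3 ≤ n) {T : Finset (ℕ × ℕ)} (hd : ∀ d ∈ T, IsDiag n d)
    (hnc : ∀ d ∈ T, ∀ e ∈ T, ¬ Cross d e) : T.card ≤ n - 3 := by
  have h2 : ∀ d ∈ T, d.1 + 2 ≤ d.2 := fun d h => (hd d h).1
  obtain ⟨k, hik, hkj, hM⟩ := split h2 hnc (i := 0) (j := n - 1) (by omega)
  have h3 := M_le h2 hnc (k - 1) 0 k (by omega)
  have h4 := M_le h2 hnc (n - 1 - k - 1) k (n - 1) (by omega)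
  have h5 : M T 0 (n - 1) = T.card := by
    unfold M
    congr 1
    rw [filter_eq_self]
    intro d h
    have := (hd d h).2.1
    omega
  have h6 : (0, n - 1) ∉ T := by
    intro h
    exact (hd _ h).2.2 ⟨rfl, by simp only; omega⟩
  rw [if_neg h6] at hM
  omega

/-- triangulations are maximal -/
lemma IsTri.maximal {n : ℕ} (hn : 3 ≤ n) {T : Finset (ℕ × ℕ)} (hT : IsTri n T) {d : ℕ × ℕ}
    (hd : IsDiag n d) (h : ∀ e ∈ T, ¬ Cross d e) : d ∈ T := by
  by_contra hcon
  have h1 := card_le hn (T := insert d T) (by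
    intro e he
    rcases mem_insert.1 he with he1 | he1
    · rw [he1]; exact hd
    · exact hT.diag e he1) (by
    intro e he f hf
    rcases mem_insert.1 he with he1 | he1
    · rcases mem_insert.1 hf with hf1 | hf1
      · rw [he1, hf1]; unfold Cross; omega
      · rw [he1]; exact h f hf1
    · rcases mem_insert.1 hf with hf1 | hf1
      · have := h e he1
        rw [hf1]
        unfold Cross at this ⊢
        omega
      · exact hT.nc e he1 f hf1)
  rw [card_insert_of_notMem hcon, hT.card] at h1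
  omega

/-- the diagonal which cuts off the vertex `v` -/
def earDiag (n v : ℕ) : ℕ × ℕ :=
  if v = 0 then (1, n - 1) else if v + 1 = n then (0, n - 2) else (v - 1, v + 1)

/-- the ears of a triangulation -/
def ears (n : ℕ) (T : Finset (ℕ × ℕ)) : Finset ℕ := (range n).filter (fun v => earDiag n v ∈ T)

lemma mem_ears {n : ℕ} {T : Finset (ℕ × ℕ)} {v : ℕ} :
    v ∈ ears n T ↔ v < n ∧ earDiag n v ∈ T := by
  unfold ears
  rw [mem_filter, mem_range]

lemma ears_disjoint {n : ℕ} {T T' : Finset (ℕ × ℕ)} (h : Disjoint T T') :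
    Disjoint (ears n T) (ears n T') := by
  rw [Finset.disjoint_left]
  intro v hv hv'
  exact Finset.disjoint_left.1 h (mem_ears.1 hv).2 (mem_ears.1 hv').2

/-- there is an ear inside of every diagonal -/
lemma inner_ear {n : ℕ} (hn : 3 ≤ n) {T : Finset (ℕ × ℕ)} (hT : IsTri n T) :
    ∀ m i j : ℕ, j = i + 2 + m → (i, j) ∈ T → ∃ v, i < v ∧ v < j ∧ v ∈ ears n T := by
  intro m
  induction m using Nat.strong_induction_on with
  | _ m ih =>
    intro i j hj hij
    have hd := hT.diag _ hij
    unfold IsDiag at hd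
    simp only at hd
    by_cases hex : ∃ a b, (a, b) ∈ T ∧ i ≤ a ∧ b ≤ j ∧ b - a < j - i
    · obtain ⟨a, b, hab, h1, h2, h3⟩ := hex
      have hd' := hT.diag _ hab
      unfold IsDiag at hd'
      simp only at hd'
      obtain ⟨v, hv1, hv2, hv3⟩ := ih (b - a - 2) (by omega) a b (by omega) hab
      exact ⟨v, by omega, by omega, hv3⟩
    · push Not at hex
      rcases Nat.eq_zero_or_pos m with hm | hm
      · subst hm
        refine ⟨i + 1, by omega, by omega, ?_⟩
        rw [mem_ears]
        refine ⟨by omega, ?_⟩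
        unfold earDiag
        rw [if_neg (by omega), if_neg (by omega)]
        have : (i + 1 - 1, i + 1 + 1) = (i, j) := by
          rw [Prod.mk.injEq]; omega
        rw [this]
        exact hij
      · exfalso
        have hmem : (i, j - 1) ∈ T := by
          apply hT.maximal hn
          · unfold IsDiag
            simp only
            omega
          · rintro ⟨a, b⟩ hab hc
            have h1 := hT.nc _ hab _ hij
            have h2 := hex a b hab
            have hd' := hT.diag _ hab
            unfold IsDiag at hd'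
            unfold Cross at hc h1
            simp only at hc h1 hd'
            omega
        have := hex i (j - 1) hmem le_rfl (by omega)
        omega

/-- rotation of the polygon by one step -/
def rot (n : ℕ) (d : ℕ × ℕ) : ℕ × ℕ := if d.1 = 0 then (d.2 - 1, n - 1) else (d.1 - 1, d.2 - 1)

lemma rot_diag {n : ℕ} {d : ℕ × ℕ} (hd : IsDiag n d) : IsDiag n (rot n d) := by
  unfold IsDiag at *
  unfold rot
  split_ifs with h
  · simp only; omega
  · simp only; omega

lemma rot_cross {n : ℕ} {d e : ℕ × ℕ} (hd : IsDiag n d) (he : IsDiag n e)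
    (h : Cross (rot n d) (rot n e)) : Cross d e := by
  unfold IsDiag at *
  unfold rot Cross at *
  split_ifs at h with h1 h2 h2 <;> simp only at h <;> omega

lemma rot_inj {n : ℕ} {d e : ℕ × ℕ} (hd : IsDiag n d) (he : IsDiag n e)
    (h : rot n d = rot n e) : d = e := by
  unfold IsDiag at *
  unfold rot at h
  rw [Prod.ext_iff]
  split_ifs at h with h1 h2 h2 <;> rw [Prod.mk.injEq] at h <;> omega

lemma IsTri.rot {n : ℕ} {T : Finset (ℕ × ℕ)} (hT : IsTri n T) : IsTri n (T.image (rot n)) := by
  constructor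
  · intro d hd
    obtain ⟨e, he, rfl⟩ := mem_image.1 hd
    exact rot_diag (hT.diag e he)
  · intro d hd e he hc
    obtain ⟨d', hd', rfl⟩ := mem_image.1 hd
    obtain ⟨e', he', rfl⟩ := mem_image.1 he
    exact hT.nc _ hd' _ he' (rot_cross (hT.diag _ hd') (hT.diag _ he') hc)
  · rw [card_image_of_injOn, hT.card]
    intro d hd e he h
    exact rot_inj (hT.diag _ hd) (hT.diag _ he) h

lemma rot_disjoint {n : ℕ} {T T' : Finset (ℕ × ℕ)} (hT : IsTri n T) (hT' : IsTri n T')
    (h : Disjoint T T') : Disjoint (T.image (rot n)) (T'.image (rot n)) := by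
  rw [Finset.disjoint_left] at *
  intro d hd hd'
  obtain ⟨e, he, rfl⟩ := mem_image.1 hd
  obtain ⟨f, hf, hfe⟩ := mem_image.1 hd'
  have : f = e := rot_inj (hT'.diag _ hf) (hT.diag _ he) hfe
  subst this
  exact h he hf

lemma mem_rot {n : ℕ} {T : Finset (ℕ × ℕ)} (hT : IsTri n T) {d : ℕ × ℕ} (hd : IsDiag n d) :
    rot n d ∈ T.image (rot n) ↔ d ∈ T := by
  constructor
  · intro h
    obtain ⟨e, he, hed⟩ := mem_image.1 h
    have := rot_inj (hT.diag _ he) hd hed
    rw [← this]
    exact he
  · intro h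
    exact mem_image_of_mem _ h

lemma earDiag_diag {n v : ℕ} (hn : 4 ≤ n) (hv : v < n) : IsDiag n (earDiag n v) := by
  unfold IsDiag earDiag
  by_cases h0 : v = 0
  · rw [if_pos h0]
    refine ⟨?_, ?_, ?_⟩
    · simp only; omega
    · simp only; omega
    · rintro ⟨h, _⟩
      simp at h
  · rw [if_neg h0]
    by_cases h1 : v + 1 = n
    · rw [if_pos h1]
      refine ⟨?_, ?_, ?_⟩
      · simp only; omega
      · simp only; omega
      · rintro ⟨_, h⟩
        simp only at h
        omega
    · rw [if_neg h1]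
      refine ⟨?_, ?_, ?_⟩
      · simp only; omega
      · simp only; omega
      · rintro ⟨h, h'⟩
        simp only at h h'
        omega

lemma rot_earDiag {n v : ℕ} (hn : 4 ≤ n) (hv : v < n) :
    rot n (earDiag n v) = earDiag n (if v = 0 then n - 1 else v - 1) := by
  unfold rot earDiag
  by_cases h0 : v = 0
  · subst h0
    simp only [if_true]
    rw [if_neg (by omega), if_neg (by omega), if_pos (by omega), Prod.mk.injEq]
    omega
  · simp only [h0, if_false]
    by_cases h1 : v + 1 = n
    · rw [if_pos h1]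
      simp only [if_true]
      rw [if_neg (by omega), if_neg (by omega), Prod.mk.injEq]
      omega
    · rw [if_neg h1]
      by_cases h2 : v = 1
      · subst h2
        simp
      · simp only
        rw [if_neg (by omega), if_neg (by omega), if_neg (by omega), Prod.mk.injEq]
        omega

lemma ears_rot {n v : ℕ} (hn : 4 ≤ n) (hv : v < n) {T : Finset (ℕ × ℕ)} (hT : IsTri n T) :
    (if v = 0 then n - 1 else v - 1) ∈ ears n (T.image (rot n)) ↔ v ∈ ears n T := by
  rw [mem_ears, mem_ears, ← rot_earDiag hn hv, mem_rot hT (earDiag_diag hn hv)]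
  constructor
  · exact fun h => ⟨hv, h.2⟩
  · intro h
    refine ⟨?_, h.2⟩
    split_ifs <;> omega

/-- there is an ear outside of every diagonal -/
lemma outer_ear {n : ℕ} (hn : 4 ≤ n) :
    ∀ i j : ℕ, ∀ T : Finset (ℕ × ℕ), IsTri n T → (i, j) ∈ T →
      ∃ v, (v < i ∨ j < v) ∧ v ∈ ears n T := by
  intro i
  induction i with
  | zero =>
    intro j T hT hij
    have hd := hT.diag _ hij
    have hrot := (mem_rot hT hd).2 hij
    have e : rot n (0, j) = (j - 1, n - 1) := by
      unfold rot; simp
    rw [e] at hrot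
    have hd1 : 0 + 2 ≤ j := hd.1
    have hd2 : j < n := hd.2.1
    have hd3 : j + 1 ≠ n := fun h => hd.2.2 ⟨rfl, h⟩
    obtain ⟨v, h1, h2, h3⟩ := inner_ear (by omega) hT.rot (n - 1 - (j - 1) - 2) (j - 1) (n - 1)
      (by omega) hrot
    refine ⟨v + 1, Or.inr (by omega), ?_⟩
    rw [← ears_rot hn (by omega) hT]
    simpa using h3
  | succ i ih =>
    intro j T hT hij
    have hd := hT.diag _ hij
    have hrot := (mem_rot hT hd).2 hij
    have e : rot n (i + 1, j) = (i, j - 1) := by
      unfold rot; simp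
    rw [e] at hrot
    unfold IsDiag at hd
    simp only at hd
    obtain ⟨v, h1, h2⟩ := ih (j - 1) (T.image (rot n)) hT.rot hrot
    have hvn : v < n := (mem_ears.1 h2).1
    rcases Nat.lt_or_ge (v + 1) n with hv | hv
    · refine ⟨v + 1, by omega, ?_⟩
      rw [← ears_rot hn hv hT]
      simpa using h2
    · refine ⟨0, Or.inl (by omega), ?_⟩
      rw [← ears_rot hn (by omega) hT]
      have : v = n - 1 := by omega
      subst this
      simpa using h2

/-- every triangulation has at least two ears -/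
lemma two_le_ears {n : ℕ} (hn : 4 ≤ n) {T : Finset (ℕ × ℕ)} (hT : IsTri n T) :
    2 ≤ (ears n T).card := by
  have hne : T.Nonempty := by
    rw [← card_pos, hT.card]
    omega
  obtain ⟨⟨i, j⟩, hij⟩ := hne
  have hd := hT.diag _ hij
  unfold IsDiag at hd
  simp only at hd
  obtain ⟨v, h1, h2, h3⟩ := inner_ear (by omega) hT (j - i - 2) i j (by omega) hij
  obtain ⟨w, h4, h5⟩ := outer_ear hn i j T hT hij
  have hvw : v ≠ w := by omega
  calc 2 = ({v, w} : Finset ℕ).card := (card_pair hvw).symm
    _ ≤ _ := by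
      apply card_le_card
      intro x hx
      rw [mem_insert, mem_singleton] at hx
      rcases hx with rfl | rfl
      · exact h3
      · exact h5

end Pool.Agent.Q151.Tri
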