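import Mathlib

set_option autoImplicit false

/-! The colouring of the sets of ears. -/

namespace Pool.Agent.Q151.Tri

open Finset

/-- the exceptional sets of the second class -/
def Moved (r : ℕ) (E : Finset ℕ) : Prop :=
  1 ∈ E ∧ 0 ∉ E ∧ r ∉ E ∧ (E.filter (fun v => 2 * r ≤ v)).card = 1

open Classical in
/-- the colour of a set of ears -/
noncomputable def colE (r : ℕ) (E : Finset ℕ) : ℕ :=
  if h : (E.filter (fun v => 3 * r - 1 ≤ v)).Nonempty then
    2 + ((E.filter (fun v => 3 * r - 1 ≤ v)).min' h - (3 * r - 1)) / (r - 1)
  else if E = {0, r} ∨ ((E.filter (fun v => 2 * r ≤ v)).Nonempty ∧ ¬ Moved r E) then 0 else 1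

section

variable {ι : Type} {E : ι → Finset ℕ}

lemma count_one {J : Finset ι} {S : Finset ℕ}
    (hdis : ∀ i ∈ J, ∀ j ∈ J, i ≠ j → Disjoint (E i) (E j))
    (h : ∀ j ∈ J, ∃ v ∈ E j, v ∈ S) : J.card ≤ S.card := by
  classical
  choose! f hf1 hf2 using h
  apply Finset.card_le_card_of_injOn f (fun j hj => hf2 j hj)
  intro i hi j hj hij
  by_contra hne
  exact Finset.disjoint_left.1 (hdis i hi j hj hne) (hf1 i hi) (hij ▸ hf1 j hj)

lemma count_two {J : Finset ι} {S : Finset ℕ}
    (hdis : ∀ i ∈ J, ∀ j ∈ J, i ≠ j → Disjoint (E i) (E j))
    (h : ∀ j ∈ J, E j ⊆ S) (h2 : ∀ j ∈ J, 2 ≤ (E j).card) : 2 * J.card ≤ S.card := by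
  classical
  have h3 : (J.biUnion E).card = ∑ j ∈ J, (E j).card := by
    apply card_biUnion
    intro i hi j hj hij
    exact hdis i hi j hj hij
  have h4 : (J.biUnion E).card ≤ S.card := by
    apply card_le_card
    intro v hv
    obtain ⟨j, hj, hvj⟩ := mem_biUnion.1 hv
    exact h j hj hvj
  have h5 : ∑ _j ∈ J, 2 ≤ ∑ j ∈ J, (E j).card := sum_le_sum h2
  rw [sum_const, smul_eq_mul] at h5
  omega

lemma pair_of {F : Finset ℕ} {x : ℕ} (h2 : 2 ≤ F.card) (h3 : ¬ 3 ≤ F.card) (hx : x ∈ F) :
    ∃ y, y ≠ x ∧ F = {x, y} := by
  have hc : F.card = 2 := by omega
  obtain ⟨a, b, hab, hF⟩ := card_eq_two.1 hc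
  rw [hF, mem_insert, mem_singleton] at hx
  rcases hx with rfl | rfl
  · exact ⟨b, hab.symm, hF⟩
  · refine ⟨a, hab, ?_⟩
    rw [hF, pair_comm]

/-- the combinatorial part -/
theorem no_mono {r : ℕ} (hr : 3 ≤ r) {I : Finset ι} (hI : I.card = r)
    (hE2 : ∀ i ∈ I, 2 ≤ (E i).card)
    (hdis : ∀ i ∈ I, ∀ j ∈ I, i ≠ j → Disjoint (E i) (E j))
    (hin : ∀ i ∈ I, ∀ j ∈ I, i ≠ j → ∀ a b, a < b → E i = {a, b} → ∃ v ∈ E j, a < v ∧ v < b)
    (hout : ∀ i ∈ I, ∀ j ∈ I, i ≠ j → ∀ a b, a < b → E i = {a, b} → ∃ v ∈ E j, v < a ∨ b < v)
    {c : ℕ} (hcol : ∀ i ∈ I, colE r (E i) = c) : False := by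
  classical
  -- the first case
  by_cases hW : ∃ i ∈ I, ((E i).filter (fun v => 3 * r - 1 ≤ v)).Nonempty
  · obtain ⟨i0, hi0, hi0W⟩ := hW
    have hc2 : 2 ≤ c := by
      rw [← hcol i0 hi0]
      unfold colE
      rw [dif_pos hi0W]
      exact Nat.le_add_right 2 _
    have hall : ∀ i ∈ I, ∃ v ∈ E i,
        v ∈ Ico (3 * r - 1 + (c - 2) * (r - 1)) (3 * r - 1 + (c - 2) * (r - 1) + (r - 1)) := by
      intro i hi
      have h1 := hcol i hi
      unfold colE at h1
      split_ifs at h1 with h2 h3
      · obtain ⟨w, hw⟩ : ∃ w, w = ((E i).filter (fun v => 3 * r - 1 ≤ v)).min' h2 := ⟨_, rfl⟩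
        have hwm : w ∈ (E i).filter (fun v => 3 * r - 1 ≤ v) := by
          rw [hw]; exact min'_mem _ _
        rw [← hw] at h1
        rw [mem_filter] at hwm
        refine ⟨w, hwm.1, ?_⟩
        rw [mem_Ico]
        have h4 : (w - (3 * r - 1)) / (r - 1) = c - 2 := by omega
        have hr1 : 0 < r - 1 := by omega
        have h5 := Nat.div_mul_le_self (w - (3 * r - 1)) (r - 1)
        have h6 := Nat.lt_div_mul_add (a := w - (3 * r - 1)) hr1
        rw [h4] at h5 h6
        omega
      · omega
      · omega
    have := count_one hdis hall
    rw [hI, Nat.card_Ico] at this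
    omega
  · push Not at hW
    have hlt : ∀ i ∈ I, ∀ v ∈ E i, v < 3 * r - 1 := by
      intro i hi v hv
      by_contra hcon
      have h1 := hW i hi
      have : v ∈ (E i).filter (fun v => 3 * r - 1 ≤ v) := by
        rw [mem_filter]; exact ⟨hv, by omega⟩
      rw [h1] at this
      simp at this
    have hcolv : ∀ i ∈ I, c = if E i = {0, r} ∨
        (((E i).filter (fun v => 2 * r ≤ v)).Nonempty ∧ ¬ Moved r (E i)) then 0 else 1 := by
      intro i hi
      rw [← hcol i hi]
      unfold colE
      rw [dif_neg]
      rw [hW i hi]
      simp
    have hne : ∀ i ∈ I, ∃ i0 ∈ I, i0 = i := fun i hi => ⟨i, hi, rfl⟩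
    obtain ⟨i00, hi00⟩ : I.Nonempty := by rw [← card_pos]; omega
    have hc01 : c = 0 ∨ c = 1 := by
      have := hcolv i00 hi00
      split_ifs at this
      · exact Or.inl this
      · exact Or.inr this
    have hdis' : ∀ J ⊆ I, ∀ i ∈ J, ∀ j ∈ J, i ≠ j → Disjoint (E i) (E j) :=
      fun J hJ i hi j hj hij => hdis i (hJ hi) j (hJ hj) hij
    rcases hc01 with hc | hc
    · -- the class `0`
      subst hc
      have hA : ∀ i ∈ I, E i = {0, r} ∨
          (((E i).filter (fun v => 2 * r ≤ v)).Nonempty ∧ ¬ Moved r (E i)) := by
        intro i hi
        have := hcolv i hi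
        split_ifs at this with h
        exact h
      by_cases hex : ∃ i0 ∈ I, E i0 = {0, r}
      · obtain ⟨i0, hi0, hE0⟩ := hex
        have hsub : I.erase i0 ⊆ I := erase_subset _ _
        have hcard : (I.erase i0).card = r - 1 := by rw [card_erase_of_mem hi0, hI]
        have hnot : ∀ j ∈ I.erase i0, 0 ∉ E j ∧ r ∉ E j := by
          intro j hj
          have h1 := hdis i0 hi0 j (hsub hj) (ne_of_mem_erase hj).symm
          rw [hE0, Finset.disjoint_left] at h1
          exact ⟨h1 (by simp), h1 (by simp)⟩
        have hX : ∀ j ∈ I.erase i0, ∃ v ∈ E j, v ∈ Ico (2 * r) (3 * r - 1) := by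
          intro j hj
          rcases hA j (hsub hj) with h | h
          · exact absurd (by rw [h]; simp) (hnot j hj).1
          · obtain ⟨v, hv⟩ := h.1
            rw [mem_filter] at hv
            exact ⟨v, hv.1, mem_Ico.2 ⟨hv.2, hlt j (hsub hj) v hv.1⟩⟩
        obtain ⟨j1, hj1, h1j⟩ : ∃ j ∈ I.erase i0, 1 ∈ E j := by
          by_contra hno
          push Not at hno
          have := count_one (S := Ico 2 r) (hdis' _ hsub) (by
            intro j hj
            obtain ⟨v, hv, h1, h2⟩ := hin i0 hi0 j (hsub hj) (ne_of_mem_erase hj).symm 0 r
              (by omega) hE0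
            refine ⟨v, hv, mem_Ico.2 ⟨?_, h2⟩⟩
            have : v ≠ 1 := by
              rintro rfl
              exact hno j hj hv
            omega)
          rw [hcard, Nat.card_Ico] at this
          omega
        rcases hA j1 (hsub hj1) with h | ⟨hne1, hnm⟩
        · exact absurd (by rw [h]; simp) (hnot j1 hj1).1
        · apply hnm
          refine ⟨h1j, (hnot j1 hj1).1, (hnot j1 hj1).2, ?_⟩
          by_contra hc1
          have hc2 : 2 ≤ ((E j1).filter (fun v => 2 * r ≤ v)).card := by
            have := hne1.card_pos
            omega
          have hsub2 : (I.erase i0).erase j1 ⊆ I := (erase_subset _ _).trans hsub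
          have := count_one (J := (I.erase i0).erase j1)
            (S := Ico (2 * r) (3 * r - 1) \ (E j1).filter (fun v => 2 * r ≤ v))
            (hdis' _ hsub2) (by
            intro j hj
            obtain ⟨v, hv, hvX⟩ := hX j (mem_of_mem_erase hj)
            refine ⟨v, hv, ?_⟩
            rw [mem_sdiff]
            refine ⟨hvX, ?_⟩
            intro hvf
            exact Finset.disjoint_left.1 (hdis j (hsub2 hj) j1 (hsub hj1) (ne_of_mem_erase hj))
              hv (mem_filter.1 hvf).1)
          rw [card_erase_of_mem hj1, hcard, card_sdiff_of_subset, Nat.card_Ico] at this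
          · omega
          · intro v hv
            rw [mem_filter] at hv
            exact mem_Ico.2 ⟨hv.2, hlt j1 (hsub hj1) v hv.1⟩
      · push Not at hex
        have := count_one (S := Ico (2 * r) (3 * r - 1)) hdis (by
          intro j hj
          rcases hA j hj with h | h
          · exact absurd h (hex j hj)
          · obtain ⟨v, hv⟩ := h.1
            rw [mem_filter] at hv
            exact ⟨v, hv.1, mem_Ico.2 ⟨hv.2, hlt j hj v hv.1⟩⟩)
        rw [hI, Nat.card_Ico] at this
        omega
    · -- the class `1`
      subst hc
      have hB : ∀ i ∈ I, E i ≠ {0, r} ∧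
          (((E i).filter (fun v => 2 * r ≤ v)).Nonempty → Moved r (E i)) := by
        intro i hi
        have := hcolv i hi
        split_ifs at this with h
        push Not at h
        exact h
      by_cases hex : ∃ i1 ∈ I, ((E i1).filter (fun v => 2 * r ≤ v)).Nonempty
      · obtain ⟨i1, hi1, hne1⟩ := hex
        obtain ⟨h1F, h0F, hrF, hXF⟩ := (hB i1 hi1).2 hne1
        have hsub : I.erase i1 ⊆ I := erase_subset _ _
        have hcard : (I.erase i1).card = r - 1 := by rw [card_erase_of_mem hi1, hI]
        have hdisF : ∀ j ∈ I.erase i1, ∀ v ∈ E j, v ∉ E i1 := by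
          intro j hj v hv
          exact Finset.disjoint_left.1 (hdis j (hsub hj) i1 hi1 (ne_of_mem_erase hj)) hv
        have hY : ∀ j ∈ I.erase i1, ∀ v ∈ E j, v < 2 * r := by
          intro j hj v hv
          by_contra hcon
          have hm := (hB j (hsub hj)).2 ⟨v, by rw [mem_filter]; exact ⟨hv, by omega⟩⟩
          exact hdisF j hj 1 hm.1 h1F
        obtain ⟨FY, hFY⟩ : ∃ FY, FY = (E i1).filter (fun v => v < 2 * r) := ⟨_, rfl⟩
        have h1FY : 1 ∈ FY := by rw [hFY, mem_filter]; exact ⟨h1F, by omega⟩
        have hFYsub : FY ⊆ range (2 * r) := by
          intro v hv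
          rw [hFY, mem_filter] at hv
          exact mem_range.2 hv.2
        have hcnt := count_two (J := I.erase i1) (S := range (2 * r) \ FY) (hdis' _ hsub) (by
          intro j hj v hv
          rw [mem_sdiff, mem_range]
          refine ⟨hY j hj v hv, ?_⟩
          intro hvF
          rw [hFY, mem_filter] at hvF
          exact hdisF j hj v hv hvF.1) (fun j hj => hE2 j (hsub hj))
        rw [hcard, card_sdiff_of_subset hFYsub, card_range] at hcnt
        have hFYpos : 0 < FY.card := card_pos.2 ⟨1, h1FY⟩
        obtain ⟨x, hx⟩ := card_eq_one.1 hXF
        have hxF : x ∈ E i1 ∧ 2 * r ≤ x := by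
          have : x ∈ (E i1).filter (fun v => 2 * r ≤ v) := by rw [hx]; simp
          rwa [mem_filter] at this
        have hFall : ∀ v ∈ E i1, v ∈ FY ∨ v = x := by
          intro v hv
          rcases Nat.lt_or_ge v (2 * r) with h | h
          · left; rw [hFY, mem_filter]; exact ⟨hv, h⟩
          · right
            have : v ∈ (E i1).filter (fun v => 2 * r ≤ v) := by
              rw [mem_filter]; exact ⟨hv, h⟩
            rw [hx] at this
            exact mem_singleton.1 this
        rcases Nat.lt_or_ge FY.card 2 with hFY1 | hFY2
        · -- `F = {1, x}`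
          have hFY1' : FY = {1} := by
            obtain ⟨y, hy⟩ := card_eq_one.1 (show FY.card = 1 by omega)
            rw [hy] at h1FY ⊢
            rw [mem_singleton] at h1FY
            rw [h1FY]
          have hFeq : E i1 = {1, x} := by
            ext v
            rw [mem_insert, mem_singleton]
            constructor
            · intro hv
              rcases hFall v hv with h | h
              · left
                rw [hFY1'] at h
                exact mem_singleton.1 h
              · exact Or.inr h
            · rintro (rfl | rfl)
              · exact h1F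
              · exact hxF.1
          have := count_one (J := I.erase i1) (S := {0}) (hdis' _ hsub) (by
            intro j hj
            obtain ⟨v, hv, h⟩ := hout i1 hi1 j (hsub hj) (ne_of_mem_erase hj).symm 1 x
              (by omega) hFeq
            refine ⟨v, hv, ?_⟩
            rw [mem_singleton]
            have := hY j hj v hv
            omega)
          rw [hcard, card_singleton] at this
          omega
        · -- `F = {1, t, x}`
          obtain ⟨t, ht1, hFYt⟩ := pair_of hFY2 (by omega) h1FY
          have htF : t ∈ FY := by rw [hFYt]; simp
          have htF' : t ∈ E i1 ∧ t < 2 * r := by rwa [hFY, mem_filter] at htF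
          have ht0 : t ≠ 0 := by rintro rfl; exact h0F htF'.1
          have htr : t ≠ r := by rintro rfl; exact hrF htF'.1
          have hjF : ∀ j ∈ I.erase i1, ∀ v ∈ E j, v ≠ 1 ∧ v ≠ t := by
            intro j hj v hv
            constructor
            · rintro rfl; exact hdisF j hj _ hv h1F
            · rintro rfl; exact hdisF j hj _ hv htF'.1
          have hthree : ∀ j0 ∈ I.erase i1, ¬ 3 ≤ (E j0).card := by
            intro j0 hj0 h3
            have hsub2 : (I.erase i1).erase j0 ⊆ I := (erase_subset _ _).trans hsub
            have hss : FY ∪ E j0 ⊆ range (2 * r) := by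
              apply union_subset hFYsub
              intro v hv
              exact mem_range.2 (hY j0 hj0 v hv)
            have hdj : Disjoint FY (E j0) := by
              rw [Finset.disjoint_left]
              intro v hv hv'
              rw [hFY, mem_filter] at hv
              exact hdisF j0 hj0 v hv' hv.1
            have := count_two (J := (I.erase i1).erase j0) (S := range (2 * r) \ (FY ∪ E j0))
              (hdis' _ hsub2) (by
              intro j hj v hv
              have hj' := mem_of_mem_erase hj
              rw [mem_sdiff, mem_range, mem_union]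
              refine ⟨hY j hj' v hv, ?_⟩
              rintro (h | h)
              · rw [hFY, mem_filter] at h
                exact hdisF j hj' v hv h.1
              · exact Finset.disjoint_left.1
                  (hdis j (hsub2 hj) j0 (hsub hj0) (ne_of_mem_erase hj)) hv h)
              (fun j hj => hE2 j (hsub2 hj))
            rw [card_erase_of_mem hj0, hcard, card_sdiff_of_subset hss,
              card_union_of_disjoint hdj, card_range] at this
            omega
          rcases Nat.lt_or_ge t r with htlt | htge
          · -- `t < r`: use the set which contains `2 r - 1`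
            obtain ⟨j0, hj0, hj0m⟩ : ∃ j0 ∈ I.erase i1, 2 * r - 1 ∈ E j0 := by
              by_contra hno
              push Not at hno
              have hss : ({1, t} : Finset ℕ) ⊆ range (2 * r - 1) := by
                intro v hv
                rw [mem_insert, mem_singleton] at hv
                rw [mem_range]
                omega
              have := count_two (J := I.erase i1) (S := range (2 * r - 1) \ {1, t})
                (hdis' _ hsub) (by
                intro j hj v hv
                rw [mem_sdiff, mem_range, mem_insert, mem_singleton]
                have h1 := hY j hj v hv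
                have h2 := hjF j hj v hv
                have h3 : v ≠ 2 * r - 1 := by rintro rfl; exact hno j hj hv
                omega) (fun j hj => hE2 j (hsub hj))
              rw [hcard, card_sdiff_of_subset hss, card_range, card_pair ht1.symm] at this
              omega
            obtain ⟨s, hs1, hEs⟩ := pair_of (hE2 j0 (hsub hj0)) (hthree j0 hj0) hj0m
            have hsm : s ∈ E j0 := by rw [hEs]; simp
            have hs2 := hY j0 hj0 s hsm
            have hs3 := hjF j0 hj0 s hsm
            have hEs' : E j0 = {s, 2 * r - 1} := by rw [hEs, pair_comm]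
            have hst : s < t := by
              obtain ⟨v, hv, h1, h2⟩ := hin j0 (hsub hj0) i1 hi1 (ne_of_mem_erase hj0) s
                (2 * r - 1) (by omega) hEs'
              rcases hFall v hv with h | h
              · rw [hFYt, mem_insert, mem_singleton] at h
                omega
              · omega
            have hsub2 : (I.erase i1).erase j0 ⊆ I := (erase_subset _ _).trans hsub
            rcases Nat.eq_zero_or_pos s with hs0 | hs0
            · have := count_one (J := (I.erase i1).erase j0) (S := ∅) (hdis' _ hsub2) (by
                intro j hj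
                obtain ⟨v, hv, h⟩ := hout j0 (hsub hj0) j (hsub2 hj) (ne_of_mem_erase hj).symm
                  s (2 * r - 1) (by omega) hEs'
                have := hY j (mem_of_mem_erase hj) v hv
                omega)
              rw [card_erase_of_mem hj0, hcard, card_empty] at this
              omega
            · have hss : ({1} : Finset ℕ) ⊆ range s := by
                intro v hv
                rw [mem_singleton] at hv
                rw [mem_range]
                omega
              have := count_one (J := (I.erase i1).erase j0) (S := range s \ {1})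
                (hdis' _ hsub2) (by
                intro j hj
                obtain ⟨v, hv, h⟩ := hout j0 (hsub hj0) j (hsub2 hj) (ne_of_mem_erase hj).symm
                  s (2 * r - 1) (by omega) hEs'
                have h1 := hY j (mem_of_mem_erase hj) v hv
                have h2 := hjF j (mem_of_mem_erase hj) v hv
                refine ⟨v, hv, ?_⟩
                rw [mem_sdiff, mem_range, mem_singleton]
                omega)
              rw [card_erase_of_mem hj0, hcard, card_sdiff_of_subset hss, card_range,
                card_singleton] at this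
              omega
          · -- `t > r`: use the set which contains `0`
            have htgt : r < t := by omega
            obtain ⟨j0, hj0, hj0m⟩ : ∃ j0 ∈ I.erase i1, 0 ∈ E j0 := by
              by_contra hno
              push Not at hno
              have hss : ({1, t} : Finset ℕ) ⊆ Ico 1 (2 * r) := by
                intro v hv
                rw [mem_insert, mem_singleton] at hv
                rw [mem_Ico]
                omega
              have := count_two (J := I.erase i1) (S := Ico 1 (2 * r) \ {1, t})
                (hdis' _ hsub) (by
                intro j hj v hv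
                rw [mem_sdiff, mem_Ico, mem_insert, mem_singleton]
                have h1 := hY j hj v hv
                have h2 := hjF j hj v hv
                have h3 : v ≠ 0 := by rintro rfl; exact hno j hj hv
                omega) (fun j hj => hE2 j (hsub hj))
              rw [hcard, card_sdiff_of_subset hss, Nat.card_Ico, card_pair ht1.symm] at this
              omega
            obtain ⟨b, hb1, hEb⟩ := pair_of (hE2 j0 (hsub hj0)) (hthree j0 hj0) hj0m
            have hbm : b ∈ E j0 := by rw [hEb]; simp
            have hb2 := hY j0 hj0 b hbm
            have hb3 := hjF j0 hj0 b hbm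
            have hbr : b ≠ r := by
              rintro rfl
              exact (hB j0 (hsub hj0)).1 hEb
            have hsub2 : (I.erase i1).erase j0 ⊆ I := (erase_subset _ _).trans hsub
            have hcard2 : ((I.erase i1).erase j0).card = r - 2 := by
              rw [card_erase_of_mem hj0, hcard]; omega
            rcases Nat.lt_or_ge t b with htb | htb
            · -- `t < b`
              have hss : ({1, t} : Finset ℕ) ⊆ Ico 1 b := by
                intro v hv
                rw [mem_insert, mem_singleton] at hv
                rw [mem_Ico]
                omega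
              have k1 := count_one (J := (I.erase i1).erase j0) (S := Ico 1 b \ {1, t})
                (hdis' _ hsub2) (by
                intro j hj
                obtain ⟨v, hv, h1, h2⟩ := hin j0 (hsub hj0) j (hsub2 hj)
                  (ne_of_mem_erase hj).symm 0 b (by omega) hEb
                have h3 := hjF j (mem_of_mem_erase hj) v hv
                refine ⟨v, hv, ?_⟩
                rw [mem_sdiff, mem_Ico, mem_insert, mem_singleton]
                omega)
              have k2 := count_one (J := (I.erase i1).erase j0) (S := Ico (b + 1) (2 * r))
                (hdis' _ hsub2) (by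
                intro j hj
                obtain ⟨v, hv, h1⟩ := hout j0 (hsub hj0) j (hsub2 hj)
                  (ne_of_mem_erase hj).symm 0 b (by omega) hEb
                have h3 := hY j (mem_of_mem_erase hj) v hv
                refine ⟨v, hv, ?_⟩
                rw [mem_Ico]
                omega)
              rw [hcard2, card_sdiff_of_subset hss, Nat.card_Ico, card_pair ht1.symm] at k1
              rw [hcard2, Nat.card_Ico] at k2
              omega
            · -- `b < t`
              have hss : ({1} : Finset ℕ) ⊆ Ico 1 b := by
                intro v hv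
                rw [mem_singleton] at hv
                rw [mem_Ico]
                omega
              have hss' : ({t} : Finset ℕ) ⊆ Ico (b + 1) (2 * r) := by
                intro v hv
                rw [mem_singleton] at hv
                rw [mem_Ico]
                omega
              have k1 := count_one (J := (I.erase i1).erase j0) (S := Ico 1 b \ {1})
                (hdis' _ hsub2) (by
                intro j hj
                obtain ⟨v, hv, h1, h2⟩ := hin j0 (hsub hj0) j (hsub2 hj)
                  (ne_of_mem_erase hj).symm 0 b (by omega) hEb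
                have h3 := hjF j (mem_of_mem_erase hj) v hv
                refine ⟨v, hv, ?_⟩
                rw [mem_sdiff, mem_Ico, mem_singleton]
                omega)
              have k2 := count_one (J := (I.erase i1).erase j0)
                (S := Ico (b + 1) (2 * r) \ {t}) (hdis' _ hsub2) (by
                intro j hj
                obtain ⟨v, hv, h1⟩ := hout j0 (hsub hj0) j (hsub2 hj)
                  (ne_of_mem_erase hj).symm 0 b (by omega) hEb
                have h3 := hY j (mem_of_mem_erase hj) v hv
                have h4 := hjF j (mem_of_mem_erase hj) v hv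
                refine ⟨v, hv, ?_⟩
                rw [mem_sdiff, mem_Ico, mem_singleton]
                omega)
              rw [hcard2, card_sdiff_of_subset hss, Nat.card_Ico, card_singleton] at k1
              rw [hcard2, card_sdiff_of_subset hss', Nat.card_Ico, card_singleton] at k2
              omega
      · -- all sets are contained in `[0, 2 r)`
        push Not at hex
        have hY : ∀ j ∈ I, ∀ v ∈ E j, v < 2 * r := by
          intro j hj v hv
          by_contra hcon
          have h1 := hex j hj
          have : v ∈ (E j).filter (fun v => 2 * r ≤ v) := by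
            rw [mem_filter]; exact ⟨hv, by omega⟩
          rw [h1] at this
          simp at this
        obtain ⟨j0, hj0, hj0m⟩ : ∃ j0 ∈ I, 0 ∈ E j0 := by
          by_contra hno
          push Not at hno
          have := count_two (S := Ico 1 (2 * r)) hdis (by
            intro j hj v hv
            rw [mem_Ico]
            have h1 := hY j hj v hv
            have h3 : v ≠ 0 := by rintro rfl; exact hno j hj hv
            omega) hE2
          rw [hI, Nat.card_Ico] at this
          omega
        have hsub2 : I.erase j0 ⊆ I := erase_subset _ _
        have hcard2 : (I.erase j0).card = r - 1 := by rw [card_erase_of_mem hj0, hI]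
        have hthree : ¬ 3 ≤ (E j0).card := by
          intro h3
          have hss : E j0 ⊆ range (2 * r) := by
            intro v hv
            exact mem_range.2 (hY j0 hj0 v hv)
          have := count_two (J := I.erase j0) (S := range (2 * r) \ E j0)
            (hdis' _ hsub2) (by
            intro j hj v hv
            rw [mem_sdiff, mem_range]
            exact ⟨hY j (hsub2 hj) v hv, Finset.disjoint_left.1
              (hdis j (hsub2 hj) j0 hj0 (ne_of_mem_erase hj)) hv⟩)
            (fun j hj => hE2 j (hsub2 hj))
          rw [hcard2, card_sdiff_of_subset hss, card_range] at this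
          omega
        obtain ⟨b, hb1, hEb⟩ := pair_of (hE2 j0 hj0) hthree hj0m
        have hbm : b ∈ E j0 := by rw [hEb]; simp
        have hb2 := hY j0 hj0 b hbm
        have hbr : b ≠ r := by
          rintro rfl
          exact (hB j0 hj0).1 hEb
        have k1 := count_one (J := I.erase j0) (S := Ico 1 b)
          (hdis' _ hsub2) (by
          intro j hj
          obtain ⟨v, hv, h1, h2⟩ := hin j0 hj0 j (hsub2 hj)
            (ne_of_mem_erase hj).symm 0 b (by omega) hEb
          exact ⟨v, hv, mem_Ico.2 ⟨by omega, h2⟩⟩)
        have k2 := count_one (J := I.erase j0)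
          (S := Ico (b + 1) (2 * r)) (hdis' _ hsub2) (by
          intro j hj
          obtain ⟨v, hv, h1⟩ := hout j0 hj0 j (hsub2 hj)
            (ne_of_mem_erase hj).symm 0 b (by omega) hEb
          have h3 := hY j (hsub2 hj) v hv
          exact ⟨v, hv, mem_Ico.2 ⟨by omega, h3⟩⟩)
        rw [hcard2, Nat.card_Ico] at k1 k2
        omega

/-- the number of colours -/
lemma colE_lt {r n : ℕ} (hr : 3 ≤ r) (hn : 3 * r - 1 ≤ n) (F : Finset ℕ) (hF : ∀ v ∈ F, v < n) :
    colE r F < (n - 3) / (r - 1) := by
  have hr1 : 0 < r - 1 := by omega
  have h2 : 2 ≤ (n - 3) / (r - 1) := by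
    rw [Nat.le_div_iff_mul_le hr1]
    omega
  unfold colE
  split_ifs with h h'
  · obtain ⟨w, hw⟩ : ∃ w, w = (F.filter (fun v => 3 * r - 1 ≤ v)).min' h := ⟨_, rfl⟩
    have hwm : w ∈ F.filter (fun v => 3 * r - 1 ≤ v) := by
      rw [hw]; exact min'_mem _ _
    rw [← hw]
    rw [mem_filter] at hwm
    have h3 := hF w hwm.1
    have h4 : (w - (3 * r - 1)) / (r - 1) + 3 ≤ (n - 3) / (r - 1) := by
      rw [Nat.le_div_iff_mul_le hr1, Nat.add_mul]
      have := Nat.div_mul_le_self (w - (3 * r - 1)) (r - 1)
      omega
    omega
  · omega
  · omega

end

end Pool.Agent.Q151.Tri
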