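import Mathlib

/-!
# The quadric `x y + z² = g` with `g` a non-square contains no `3 × 3` sumset
-/

set_option autoImplicit false

namespace Q151.Tri

variable {K : Type*} [Field K]

/-- the quadratic form `x y + z²` -/
def qf (s : K × K × K) : K := s.1 * s.2.1 + s.2.2 ^ 2

/-- its polar form -/
def bf (s t : K × K × K) : K := s.1 * t.2.1 + t.1 * s.2.1 + 2 * s.2.2 * t.2.2

lemma qf_add (s t : K × K × K) : qf (s + t) = qf s + bf s t + qf t := by
  simp only [qf, bf, Prod.fst_add, Prod.snd_add]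
  ring

lemma bf_add_left (s s' t : K × K × K) : bf (s + s') t = bf s t + bf s' t := by
  simp only [bf, Prod.fst_add, Prod.snd_add]
  ring

lemma bf_comm (s t : K × K × K) : bf s t = bf t s := by
  simp only [bf]
  ring

lemma isotropic {g : K} (hg : ¬ IsSquare g) {s d : K × K × K} (hd : d ≠ 0) (hqd : qf d = 0)
    (hb : bf s d = 0) (hs : qf s = g) : False := by
  obtain ⟨s1, s2, s3⟩ := s
  obtain ⟨d1, d2, d3⟩ := d
  simp only [qf, bf] at hqd hb hs
  apply hg
  by_cases h1 : d1 = 0
  · subst h1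
    have h3 : d3 = 0 := by
      have : d3 ^ 2 = 0 := by linear_combination hqd
      exact pow_eq_zero_iff (by norm_num) |>.1 this
    subst h3
    have h2 : d2 ≠ 0 := by
      rintro rfl
      exact hd rfl
    have hs1 : s1 = 0 := by
      have : s1 * d2 = 0 := by linear_combination hb
      exact (mul_eq_zero.1 this).resolve_right h2
    subst hs1
    exact ⟨s3, by rw [← hs]; ring⟩
  · refine ⟨s3 - s1 * d3 / d1, ?_⟩
    have e2 : d2 = - d3 ^ 2 / d1 := by
      field_simp
      linear_combination hqd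
    have e : s2 = s1 * d3 ^ 2 / d1 ^ 2 - 2 * s3 * d3 / d1 := by
      rw [e2] at hb
      field_simp at hb ⊢
      linear_combination hb
    rw [← hs, e]
    field_simp
    ring

lemma scal {s u v : K × K × K} (hv : v ≠ 0) (huv : u ≠ v)
    (hp : ∃ t : K, v = t • u) (h1 : bf s u + qf u = 0) (h2 : bf s v + qf v = 0) :
    qf u = 0 ∧ bf s u = 0 := by
  obtain ⟨t, rfl⟩ := hp
  have ht0 : t ≠ 0 := by
    rintro rfl
    exact hv (by simp)
  have ht1 : t ≠ 1 := by
    rintro rfl
    exact huv (by simp)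
  have e1 : bf s (t • u) = t * bf s u := by
    simp only [bf, Prod.smul_fst, Prod.smul_snd, smul_eq_mul]
    ring
  have e2 : qf (t • u) = t ^ 2 * qf u := by
    simp only [qf, Prod.smul_fst, Prod.smul_snd, smul_eq_mul]
    ring
  rw [e1, e2] at h2
  have h3 : t * (t - 1) * qf u = 0 := by linear_combination h2 - t * h1
  have h4 : qf u = 0 := by
    rcases mul_eq_zero.1 h3 with h | h
    · rcases mul_eq_zero.1 h with h | h
      · exact absurd h ht0
      · exact absurd (sub_eq_zero.1 h) ht1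
    · exact h
  refine ⟨h4, ?_⟩
  rw [h4, add_zero] at h1
  exact h1

lemma par_of_cross {u v : K × K × K} (hu : u ≠ 0)
    (h1 : u.2.1 * v.2.2 = u.2.2 * v.2.1) (h2 : u.2.2 * v.1 = u.1 * v.2.2)
    (h3 : u.1 * v.2.1 = u.2.1 * v.1) : ∃ t : K, v = t • u := by
  obtain ⟨u1, u2, u3⟩ := u
  obtain ⟨v1, v2, v3⟩ := v
  simp only at h1 h2 h3
  by_cases k1 : u1 = 0
  · by_cases k2 : u2 = 0
    · have k3 : u3 ≠ 0 := by
        rintro rfl
        subst k1 k2
        exact hu rfl
      refine ⟨v3 / u3, ?_⟩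
      simp only [Prod.smul_mk, smul_eq_mul, Prod.mk.injEq]
      refine ⟨?_, ?_, ?_⟩
      · field_simp
        linear_combination h2
      · field_simp
        linear_combination - h1
      · field_simp
    · refine ⟨v2 / u2, ?_⟩
      simp only [Prod.smul_mk, smul_eq_mul, Prod.mk.injEq]
      refine ⟨?_, ?_, ?_⟩
      · field_simp
        linear_combination - h3
      · field_simp
      · field_simp
        linear_combination h1
  · refine ⟨v1 / u1, ?_⟩
    simp only [Prod.smul_mk, smul_eq_mul, Prod.mk.injEq]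
    refine ⟨?_, ?_, ?_⟩
    · field_simp
    · field_simp
      linear_combination h3
    · field_simp
      linear_combination - h2

lemma par {a a' b b' : K × K × K} (h2 : (2 : K) ≠ 0) (ha : a ≠ 0) (hb : b ≠ 0)
    (h11 : bf a b = 0) (h12 : bf a b' = 0) (h21 : bf a' b = 0) (h22 : bf a' b' = 0) :
    (∃ t : K, a' = t • a) ∨ (∃ t : K, b' = t • b) := by
  obtain ⟨a1, a2, a3⟩ := a
  obtain ⟨c1, c2, c3⟩ := a'
  obtain ⟨b1, b2, b3⟩ := b
  obtain ⟨d1, d2, d3⟩ := b'
  simp only [bf] at h11 h12 h21 h22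
  by_cases hw : ((a2 * c3 - a3 * c2, a3 * c1 - a1 * c3, a1 * c2 - a2 * c1) : K × K × K) = 0
  · left
    simp only [Prod.mk_eq_zero] at hw
    obtain ⟨w1, w2, w3⟩ := hw
    exact par_of_cross ha (by simp only; linear_combination w1) (by simp only; linear_combination w2)
      (by simp only; linear_combination w3)
  · right
    have p1 : ∃ t : K, ((b2, b1, 2 * b3) : K × K × K) =
        t • ((a2 * c3 - a3 * c2, a3 * c1 - a1 * c3, a1 * c2 - a2 * c1) : K × K × K) := by
      apply par_of_cross hw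
      · simp only
        linear_combination (c1 * h11 - a1 * h21)
      · simp only
        linear_combination (c2 * h11 - a2 * h21)
      · simp only
        linear_combination (c3 * h11 - a3 * h21)
    have p2 : ∃ t : K, ((d2, d1, 2 * d3) : K × K × K) =
        t • ((a2 * c3 - a3 * c2, a3 * c1 - a1 * c3, a1 * c2 - a2 * c1) : K × K × K) := by
      apply par_of_cross hw
      · simp only
        linear_combination (c1 * h12 - a1 * h22)
      · simp only
        linear_combination (c2 * h12 - a2 * h22)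
      · simp only
        linear_combination (c3 * h12 - a3 * h22)
    obtain ⟨l, hl⟩ := p1
    obtain ⟨m, hm⟩ := p2
    simp only [Prod.smul_mk, smul_eq_mul, Prod.mk.injEq] at hl hm
    obtain ⟨l1, l2, l3⟩ := hl
    obtain ⟨m1, m2, m3⟩ := hm
    have hl0 : l ≠ 0 := by
      rintro rfl
      apply hb
      simp only [zero_mul] at l1 l2 l3
      have : b3 = 0 := (mul_eq_zero.1 l3).resolve_left h2
      rw [l1, l2, this]
      rfl
    refine ⟨m / l, ?_⟩
    simp only [Prod.smul_mk, smul_eq_mul, Prod.mk.injEq]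
    refine ⟨?_, ?_, ?_⟩
    · rw [m2, l2]
      field_simp
    · rw [m1, l1]
      field_simp
    · have : 2 * d3 = 2 * (m / l * b3) := by
        rw [m3]
        have : 2 * (m / l * b3) = m / l * (2 * b3) := by ring
        rw [this, l3]
        field_simp
      exact mul_left_cancel₀ h2 this

/-- There is no nondegenerate `3 × 3` sumset on the quadric. -/
theorem no_grid (h2 : (2 : K) ≠ 0) {g : K} (hg : ¬ IsSquare g) (s : Fin 3 → Fin 3 → K × K × K)
    (hs : ∀ i j, qf (s i j) = g)
    (hadd : ∀ i j, s i j - s 0 j = s i 0 - s 0 0)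
    (hrow : ∀ i i', i ≠ i' → s i 0 ≠ s i' 0) (hcol : ∀ j j', j ≠ j' → s 0 j ≠ s 0 j') : False := by
  -- the two families of differences
  have key : ∀ i j, bf (s i 0 - s 0 0) (s 0 j - s 0 0) = 0 := by
    intro i j
    have e : s i j = s 0 0 + (s i 0 - s 0 0) + (s 0 j - s 0 0) := by
      have := hadd i j
      have h : s i j = s i 0 - s 0 0 + s 0 j := by rw [← this]; abel
      rw [h]
      abel
    have e1 := hs i j
    have e2 := hs i 0
    have e3 := hs 0 j
    have e4 := hs 0 0
    have f2 : s i 0 = s 0 0 + (s i 0 - s 0 0) := by abel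
    have f3 : s 0 j = s 0 0 + (s 0 j - s 0 0) := by abel
    rw [e, qf_add, qf_add, bf_add_left] at e1
    rw [f2, qf_add] at e2
    rw [f3, qf_add] at e3
    linear_combination e1 - e2 - e3 + e4
  have ka : ∀ i, bf (s 0 0) (s i 0 - s 0 0) + qf (s i 0 - s 0 0) = 0 := by
    intro i
    have e2 := hs i 0
    have e4 := hs 0 0
    have f2 : s i 0 = s 0 0 + (s i 0 - s 0 0) := by abel
    rw [f2, qf_add] at e2
    linear_combination e2 - e4
  have kb : ∀ j, bf (s 0 0) (s 0 j - s 0 0) + qf (s 0 j - s 0 0) = 0 := by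
    intro j
    have e2 := hs 0 j
    have e4 := hs 0 0
    have f2 : s 0 j = s 0 0 + (s 0 j - s 0 0) := by abel
    rw [f2, qf_add] at e2
    linear_combination e2 - e4
  have n1 : s 1 0 - s 0 0 ≠ 0 := sub_ne_zero.2 (hrow 1 0 (by decide))
  have n2 : s 2 0 - s 0 0 ≠ 0 := sub_ne_zero.2 (hrow 2 0 (by decide))
  have n3 : s 1 0 - s 0 0 ≠ s 2 0 - s 0 0 := fun h =>
    hrow 1 2 (by decide) (sub_left_injective h)
  have m1 : s 0 1 - s 0 0 ≠ 0 := sub_ne_zero.2 (hcol 1 0 (by decide))
  have m2 : s 0 2 - s 0 0 ≠ 0 := sub_ne_zero.2 (hcol 2 0 (by decide))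
  have m3 : s 0 1 - s 0 0 ≠ s 0 2 - s 0 0 := fun h =>
    hcol 1 2 (by decide) (sub_left_injective h)
  rcases par h2 n1 m1 (key 1 1) (key 1 2) (key 2 1) (key 2 2) with h | h
  · obtain ⟨q0, b0⟩ := scal n2 n3 h (ka 1) (ka 2)
    exact isotropic hg n1 q0 b0 (hs 0 0)
  · obtain ⟨q0, b0⟩ := scal m2 m3 h (kb 1) (kb 2)
    exact isotropic hg m1 q0 b0 (hs 0 0)

end Q151.Tri
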