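import Mathlib
import Pool.Agent.Q151.Tri.Conic

/-!
# The lower bound: a large subset of the grid without three translated triangles
-/

set_option autoImplicit false

namespace Q151.Tri

open Finset

variable (p : ℕ) [Fact p.Prime]

/-- the points of the quadric -/
noncomputable def quad (g : ZMod p) : Finset (ZMod p × ZMod p × ZMod p) := by
  classical exact Finset.univ.filter (fun s => qf s = g)

lemma mem_quad (g : ZMod p) (s : ZMod p × ZMod p × ZMod p) : s ∈ quad p g ↔ qf s = g := by
  classical
  simp [quad]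

lemma card_quad (g : ZMod p) : (p - 1) * p ≤ (quad p g).card := by
  classical
  have h1 : ((Finset.univ.erase (0 : ZMod p)) ×ˢ (Finset.univ : Finset (ZMod p))).card
      = (p - 1) * p := by
    rw [card_product, card_erase_of_mem (mem_univ _), card_univ, ZMod.card]
  rw [← h1]
  apply Finset.card_le_card_of_injOn (fun q => (q.1, (g - q.2 ^ 2) / q.1, q.2))
  · intro q hq
    have hq0 : q.1 ≠ 0 := by
      have := Finset.mem_coe.1 hq
      rw [mem_product, mem_erase] at this
      exact this.1.1
    rw [Finset.mem_coe, mem_quad]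
    simp only [qf]
    field_simp
    ring
  · intro q _ q' _ h
    simp only [Prod.mk.injEq] at h
    exact Prod.ext h.1 h.2.2

/-- the integer code of a point -/
def code (s : ZMod p × ZMod p × ZMod p) : ℕ :=
  s.1.val + 2 * p * s.2.1.val + 4 * p ^ 2 * s.2.2.val

lemma digits {p : ℤ} (hp : 0 < p) {a b c : ℤ} (ha : |a| < 2 * p) (hb : |b| < 2 * p)
    (h : a + 2 * p * b + 4 * p ^ 2 * c = 0) : a = 0 ∧ b = 0 ∧ c = 0 := by
  have h1 : a = 0 := by
    apply Int.eq_zero_of_abs_lt_dvd (m := 2 * p) _ ha
    exact ⟨-(b + 2 * p * c), by linear_combination h⟩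
  subst h1
  have h2 : b + 2 * p * c = 0 := by
    have : (2 * p) * (b + 2 * p * c) = 0 := by linear_combination h
    exact (mul_eq_zero.1 this).resolve_left (by omega)
  have h3 : b = 0 := by
    apply Int.eq_zero_of_abs_lt_dvd (m := 2 * p) _ hb
    exact ⟨-c, by linear_combination h2⟩
  subst h3
  refine ⟨rfl, rfl, ?_⟩
  have : (2 * p) * c = 0 := by linear_combination h2
  exact (mul_eq_zero.1 this).resolve_left (by omega)

lemma code_diff (s t s' t' : ZMod p × ZMod p × ZMod p)
    (h : (code p s : ℤ) - code p t = (code p s' : ℤ) - code p t') : s - t = s' - t' := by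
  have hp : (0 : ℤ) < p := by exact_mod_cast (Fact.out : p.Prime).pos
  have hv : ∀ x : ZMod p, (0 : ℤ) ≤ x.val ∧ (x.val : ℤ) < p := fun x =>
    ⟨Int.natCast_nonneg _, by exact_mod_cast ZMod.val_lt x⟩
  have hc : ∀ x : ZMod p × ZMod p × ZMod p, (code p x : ℤ) =
      (x.1.val : ℤ) + 2 * p * (x.2.1.val : ℤ) + 4 * (p : ℤ) ^ 2 * (x.2.2.val : ℤ) := by
    intro x
    simp only [code]
    push_cast
    ring
  rw [hc, hc, hc, hc] at h
  obtain ⟨h1, h2, h3⟩ := digits (p := (p : ℤ)) hp
    (a := ((s.1.val : ℤ) - t.1.val) - (s'.1.val - t'.1.val))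
    (b := ((s.2.1.val : ℤ) - t.2.1.val) - (s'.2.1.val - t'.2.1.val))
    (c := ((s.2.2.val : ℤ) - t.2.2.val) - (s'.2.2.val - t'.2.2.val))
    (by
      have a1 := hv s.1
      have a2 := hv t.1
      have a3 := hv s'.1
      have a4 := hv t'.1
      rw [abs_lt]
      constructor <;> omega)
    (by
      have a1 := hv s.2.1
      have a2 := hv t.2.1
      have a3 := hv s'.2.1
      have a4 := hv t'.2.1
      rw [abs_lt]
      constructor <;> omega)
    (by linear_combination h)
  have key : ∀ x y x' y' : ZMod p, ((x.val : ℤ) - y.val) - (x'.val - y'.val) = 0 →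
      x - y = x' - y' := by
    intro x y x' y' h
    have : (((((x.val : ℤ) - y.val) - (x'.val - y'.val)) : ℤ) : ZMod p) = 0 := by
      rw [h]; simp
    push_cast at this
    simp only [ZMod.natCast_val, ZMod.cast_id', id_eq] at this
    exact sub_eq_zero.1 this
  exact Prod.ext (key _ _ _ _ h1) (Prod.ext (key _ _ _ _ h2) (key _ _ _ _ h3))

lemma code_lt (s : ZMod p × ZMod p × ZMod p) : code p s < 4 * p ^ 3 := by
  have h1 := ZMod.val_lt s.1
  have h2 := ZMod.val_lt s.2.1
  have h3 := ZMod.val_lt s.2.2
  have hp := (Fact.out : p.Prime).pos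
  obtain ⟨q, rfl⟩ : ∃ q, p = q + 1 := ⟨p - 1, by omega⟩
  have h1' : s.1.val ≤ q := by omega
  have h2' : s.2.1.val ≤ q := by omega
  have h3' : s.2.2.val ≤ q := by omega
  calc code (q + 1) s ≤ q + 2 * (q + 1) * q + 4 * (q + 1) ^ 2 * q := by
        unfold code
        gcongr
    _ < 4 * (q + 1) ^ 3 := by nlinarith [Nat.zero_le q]

lemma code_injective : Function.Injective (code p) := by
  intro s t h
  have := code_diff p s t s s (by rw [h])
  rw [sub_self] at this
  exact sub_eq_zero.1 this

/-- the point of the grid -/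
def fold (n : ℕ) (w : ℕ) : ℤ × ℤ := (((w % n : ℕ) : ℤ) + 1, ((w / n : ℕ) : ℤ) + 1)

lemma fold_lin (n w : ℕ) : (fold n w).1 + n * (fold n w).2 = w + 1 + n := by
  have := Nat.mod_add_div w n
  simp only [fold]
  have h : ((w % n : ℕ) : ℤ) + n * ((w / n : ℕ) : ℤ) = w := by exact_mod_cast this
  linear_combination h

/-- The large set. -/
noncomputable def big (g : ZMod p) (n : ℕ) : Finset (ℤ × ℤ) :=
  (quad p g).image (fun s => fold n (code p s))

lemma fold_code_injective (n : ℕ) : Function.Injective (fun s => fold n (code p s)) := by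
  intro s t h
  simp only at h
  have h1 := fold_lin n (code p s)
  have h2 := fold_lin n (code p t)
  rw [h, h2] at h1
  apply code_injective p
  have : (code p s : ℤ) = code p t := by linarith
  exact_mod_cast this

lemma card_big (g : ZMod p) (n : ℕ) : (p - 1) * p ≤ (big p g n).card := by
  classical
  rw [big, card_image_of_injective _ (fold_code_injective p n)]
  exact card_quad p g

lemma big_subset (g : ZMod p) {n : ℕ} (hn : 4 * p ^ 3 ≤ n ^ 2) :
    big p g n ⊆ Finset.Icc (1 : ℤ) n ×ˢ Finset.Icc (1 : ℤ) n := by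
  classical
  have hp := (Fact.out : p.Prime).pos
  have hn0 : 0 < n := by
    rcases Nat.eq_zero_or_pos n with h | h
    · subst h
      have : 0 < 4 * p ^ 3 := by positivity
      simp at hn
      omega
    · exact h
  intro x hx
  rw [big, mem_image] at hx
  obtain ⟨s, _, rfl⟩ := hx
  have h1 := code_lt p s
  have h2 : code p s < n * n := by nlinarith
  have h3 : code p s / n < n := Nat.div_lt_of_lt_mul h2
  have h4 : code p s % n < n := Nat.mod_lt _ hn0
  simp only [fold, mem_product, mem_Icc]
  have h3' : ((code p s / n : ℕ) : ℤ) < n := by exact_mod_cast h3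
  have h4' : ((code p s % n : ℕ) : ℤ) < n := by exact_mod_cast h4
  have h5 : (0 : ℤ) ≤ ((code p s / n : ℕ) : ℤ) := Int.natCast_nonneg _
  have h6 : (0 : ℤ) ≤ ((code p s % n : ℕ) : ℤ) := Int.natCast_nonneg _
  refine ⟨⟨by linarith, by linarith⟩, ⟨by linarith, by linarith⟩⟩

theorem big_avoids (hp2 : p ≠ 2) {g : ZMod p} (hg : ¬ IsSquare g) (n : ℕ)
    (x k : Fin 3 → ℤ × ℤ) (hx : Function.Injective x) (hk : Function.Injective k)
    (h : ∀ i j, x i + k j ∈ big p g n) : False := by
  classical
  have h2 : (2 : ZMod p) ≠ 0 := by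
    intro h
    have : ((2 : ℕ) : ZMod p) = 0 := by exact_mod_cast h
    rw [ZMod.natCast_eq_zero_iff] at this
    exact hp2 ((Nat.prime_dvd_prime_iff_eq Fact.out Nat.prime_two).1 this)
  have h' : ∀ i j, ∃ s, s ∈ quad p g ∧ fold n (code p s) = x i + k j := by
    intro i j
    have := h i j
    rw [big, mem_image] at this
    exact this
  choose s hs hs' using h'
  refine no_grid h2 hg s (fun i j => (mem_quad p g _).1 (hs i j)) ?_ ?_ ?_
  · intro i j
    apply code_diff
    have e1 := fold_lin n (code p (s i j))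
    have e2 := fold_lin n (code p (s 0 j))
    have e3 := fold_lin n (code p (s i 0))
    have e4 := fold_lin n (code p (s 0 0))
    rw [hs'] at e1 e2 e3 e4
    simp only [Prod.fst_add, Prod.snd_add] at e1 e2 e3 e4
    linear_combination e2 + e3 - e1 - e4
  · intro i i' hii h
    apply hii
    apply hx
    have e1 := hs' i 0
    have e2 := hs' i' 0
    rw [h, e2] at e1
    exact (add_right_cancel e1).symm
  · intro j j' hjj h
    apply hjj
    apply hk
    have e1 := hs' 0 j
    have e2 := hs' 0 j'
    rw [h, e2] at e1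
    exact (add_left_cancel e1).symm

end Q151.Tri
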