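import Pool.Agent.Q151.Tri.Basic

set_option autoImplicit false

/-! Triangulations with exactly two ears: every triangulation without common diagonals has an ear
on both sides. -/

namespace Pool.Agent.Q151.Tri

open Finset

/-- go on from vertex `i` to vertex `i + 1` -/
lemma IsTri.next {n : ℕ} (hn : 3 ≤ n) {T : Finset (ℕ × ℕ)} (hT : IsTri n T) {i c : ℕ}
    (hic : (i, c) ∈ T) (hmin : ∀ q, (i, q) ∈ T → c ≤ q) (h3 : i + 3 ≤ c) : (i + 1, c) ∈ T := by
  have hd := hT.diag _ hic
  have hd2 : c < n := hd.2.1
  apply hT.maximal hn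
  · refine ⟨by simp only; omega, hd2, ?_⟩
    rintro ⟨h, _⟩
    simp only at h
    omega
  · rintro ⟨p, q⟩ hpq hc
    have h1 := hT.nc _ hic _ hpq
    unfold Cross at hc h1
    simp only at hc h1
    rcases Nat.lt_trichotomy p i with hp | hp | hp
    · omega
    · subst hp
      have := hmin q hpq
      omega
    · omega

lemma two_ears_zero {n : ℕ} (hn : 4 ≤ n) {T T' : Finset (ℕ × ℕ)} (hT : IsTri n T)
    (hT' : IsTri n T') (hdis : Disjoint T T') {b : ℕ} (hb : 0 < b) (he : ears n T = {0, b}) :
    ∃ v ∈ ears n T', 0 < v ∧ v < b := by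
  classical
  by_contra hcon
  push Not at hcon
  have hn3 : 3 ≤ n := by omega
  have h0 : (1, n - 1) ∈ T := by
    have : 0 ∈ ears n T := by rw [he]; simp
    have := (mem_ears.1 this).2
    unfold earDiag at this
    rwa [if_pos rfl] at this
  have hbe : b ∈ ears n T := by rw [he]; simp
  have hbn : b < n := (mem_ears.1 hbe).1
  have hb1 : b ≠ 1 := by
    rintro rfl
    have := (mem_ears.1 hbe).2
    unfold earDiag at this
    rw [if_neg (by omega), if_neg (by omega)] at this
    apply hT.nc _ this _ h0
    unfold Cross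
    simp only
    omega
  have hb2 : b + 1 ≠ n := by
    intro hbn'
    have := (mem_ears.1 hbe).2
    unfold earDiag at this
    rw [if_neg (by omega), if_pos hbn'] at this
    apply hT.nc _ this _ h0
    unfold Cross
    simp only
    omega
  have hbb : (b - 1, b + 1) ∈ T := by
    have := (mem_ears.1 hbe).2
    unfold earDiag at this
    rwa [if_neg (by omega), if_neg (by omega)] at this
  have hgen : ∀ u w, (u, w) ∈ T → ∃ v, u < v ∧ v < w ∧ (v = 0 ∨ v = b) := by
    intro u w huw
    have hd : u + 2 ≤ w := (hT.diag _ huw).1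
    obtain ⟨v, h1, h2, h3⟩ := inner_ear hn3 hT (w - u - 2) u w (by omega) huw
    rw [he, mem_insert, mem_singleton] at h3
    exact ⟨v, h1, h2, h3⟩
  have hTin : ∀ u w, (u, w) ∈ T → 1 ≤ u ∧ u + 1 ≤ b ∧ b + 1 ≤ w ∧ w < n := by
    intro u w huw
    have hd1 : u + 2 ≤ w := (hT.diag _ huw).1
    have hd2 : w < n := (hT.diag _ huw).2.1
    have hd3 := (hT.diag _ huw).2.2
    simp only at hd3
    obtain ⟨v, h1, h2, h3⟩ := hgen u w huw
    have hc := hT.nc _ huw _ h0
    unfold Cross at hc
    simp only at hc
    omega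
  have hT'in : ∀ u w, (u, w) ∈ T' → b + 1 ≤ w ∧ w < n := by
    intro u w huw
    have hd1 : u + 2 ≤ w := (hT'.diag _ huw).1
    have hd2 : w < n := (hT'.diag _ huw).2.1
    obtain ⟨v, h1, h2, h3⟩ := inner_ear hn3 hT' (w - u - 2) u w (by omega) huw
    have := hcon v h3 (by omega)
    omega
  have hfull : ∀ i c1 c c2, (i, c1) ∈ T → (i, c2) ∈ T → c1 ≤ c → c ≤ c2 → (i, c) ∈ T := by
    intro i c1 c c2 h1 h2 h3 h4
    have g1 := hTin _ _ h1
    have g2 := hTin _ _ h2
    apply hT.maximal hn3
    · refine ⟨by simp only; omega, by simp only; omega, ?_⟩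
      rintro ⟨h, _⟩
      simp only at h
      omega
    · rintro ⟨p, q⟩ hpq hc
      have g3 := hTin _ _ hpq
      have k1 := hT.nc _ h1 _ hpq
      have k2 := hT.nc _ h2 _ hpq
      unfold Cross at hc k1 k2
      simp only at hc k1 k2
      omega
  have hP : ∀ i, 1 ≤ i → i + 1 ≤ b → ∃ c' c, (i, c') ∈ T' ∧ (i, c) ∈ T ∧ c' < c := by
    intro i hi
    induction i, hi using Nat.le_induction with
    | base =>
      intro _
      have hex : ∃ c', (1, c') ∈ T' := by
        by_contra hno
        push Not at hno
        have : (0, 2) ∈ T' := by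
          apply hT'.maximal hn3
          · refine ⟨le_rfl, by simp only; omega, ?_⟩
            rintro ⟨_, h⟩
            simp only at h
            omega
          · rintro ⟨p, q⟩ hpq hc
            unfold Cross at hc
            simp only at hc
            have : p = 1 := by omega
            subst this
            exact hno q hpq
        have := hT'in _ _ this
        omega
      obtain ⟨c', hc'⟩ := hex
      have h1 := hT'in _ _ hc'
      refine ⟨c', n - 1, hc', h0, ?_⟩
      have h2 : c' ≠ n - 1 := by
        rintro rfl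
        exact Finset.disjoint_left.1 hdis h0 hc'
      omega
    | succ i hi ih =>
      intro hib
      obtain ⟨c', c, h1, h2, h3⟩ := ih (by omega)
      -- the minimal neighbours
      have hmin : ∀ S : Finset (ℕ × ℕ), ∀ x, (i, x) ∈ S →
          ∃ y, (i, y) ∈ S ∧ y ≤ x ∧ ∀ q, (i, q) ∈ S → y ≤ q := by
        intro S x hx
        have hne : ∃ y, (i, y) ∈ S := ⟨x, hx⟩
        exact ⟨Nat.find hne, Nat.find_spec hne, Nat.find_min' hne hx,
          fun q hq => Nat.find_min' hne hq⟩
      obtain ⟨y', hy', hy'c, hy'm⟩ := hmin T' c' h1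
      obtain ⟨y, hy, hyc, hym⟩ := hmin T c h2
      have g1 := hT'in _ _ hy'
      have g2 := hTin _ _ hy
      have hlt : c' < y := by
        by_contra hge
        push Not at hge
        exact Finset.disjoint_left.1 hdis (hfull i y c' c hy h2 hge h3.le) h1
      exact ⟨y', y, hT'.next hn3 hy' hy'm (by omega), hT.next hn3 hy hym (by omega), by omega⟩
  obtain ⟨c', c, h1, h2, h3⟩ := hP (b - 1) (by omega) (by omega)
  have g1 := hT'in _ _ h1
  exact Finset.disjoint_left.1 hdis (hfull (b - 1) (b + 1) c' c hbb h2 (by omega) h3.le) h1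

lemma mem_ears_rot {n w : ℕ} (hn : 4 ≤ n) {T : Finset (ℕ × ℕ)} (hT : IsTri n T) :
    w ∈ ears n (T.image (rot n)) ↔
      (w + 1 < n ∧ w + 1 ∈ ears n T) ∨ (w + 1 = n ∧ 0 ∈ ears n T) := by
  rcases Nat.lt_trichotomy (w + 1) n with h | h | h
  · have := ears_rot (v := w + 1) hn h hT
    rw [if_neg (by omega)] at this
    simp only [Nat.add_sub_cancel] at this
    rw [this]
    constructor
    · exact fun h1 => Or.inl ⟨h, h1⟩
    · rintro (h1 | h1)
      · exact h1.2
      · omega
  · have := ears_rot (v := 0) hn (by omega) hT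
    rw [if_pos rfl] at this
    have e : w = n - 1 := by omega
    rw [e, this]
    constructor
    · exact fun h1 => Or.inr ⟨by omega, h1⟩
    · rintro (h1 | h1)
      · omega
      · exact h1.2
  · constructor
    · intro h1
      have := (mem_ears.1 h1).1
      omega
    · rintro (h1 | h1) <;> omega

/-- inner side -/
lemma two_ears_inner {n : ℕ} (hn : 4 ≤ n) : ∀ (a b : ℕ) (T T' : Finset (ℕ × ℕ)), IsTri n T →
    IsTri n T' → Disjoint T T' → a < b → ears n T = {a, b} →
    ∃ v ∈ ears n T', a < v ∧ v < b := by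
  intro a
  induction a with
  | zero =>
    intro b T T' hT hT' hdis hab he
    exact two_ears_zero hn hT hT' hdis hab he
  | succ a ih =>
    intro b T T' hT hT' hdis hab he
    have hbn : b < n := by
      have : b ∈ ears n T := by rw [he]; simp
      exact (mem_ears.1 this).1
    have he' : ears n (T.image (rot n)) = {a, b - 1} := by
      ext w
      rw [mem_ears_rot hn hT, he]
      simp only [mem_insert, mem_singleton]
      omega
    obtain ⟨v, hv, h1, h2⟩ := ih (b - 1) (T.image (rot n)) (T'.image (rot n)) hT.rot hT'.rot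
      (rot_disjoint hT hT' hdis) (by omega) he'
    rw [mem_ears_rot hn hT'] at hv
    rcases hv with hv | hv
    · exact ⟨v + 1, hv.2, by omega, by omega⟩
    · omega

/-- outer side -/
lemma two_ears_outer {n : ℕ} (hn : 4 ≤ n) : ∀ (a b : ℕ) (T T' : Finset (ℕ × ℕ)), IsTri n T →
    IsTri n T' → Disjoint T T' → a < b → ears n T = {a, b} →
    ∃ v ∈ ears n T', v < a ∨ b < v := by
  intro a
  induction a with
  | zero =>
    intro b T T' hT hT' hdis hab he
    have hbn : b < n := by
      have : b ∈ ears n T := by rw [he]; simp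
      exact (mem_ears.1 this).1
    have he' : ears n (T.image (rot n)) = {b - 1, n - 1} := by
      ext w
      rw [mem_ears_rot hn hT, he]
      simp only [mem_insert, mem_singleton, true_or, and_true]
      omega
    have hb1 : b - 1 < n - 1 := by omega
    obtain ⟨v, hv, h1, h2⟩ := two_ears_inner hn (b - 1) (n - 1) (T.image (rot n))
      (T'.image (rot n)) hT.rot hT'.rot (rot_disjoint hT hT' hdis) hb1 he'
    rw [mem_ears_rot hn hT'] at hv
    rcases hv with hv | hv
    · exact ⟨v + 1, hv.2, by omega⟩
    · omega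
  | succ a ih =>
    intro b T T' hT hT' hdis hab he
    have hbn : b < n := by
      have : b ∈ ears n T := by rw [he]; simp
      exact (mem_ears.1 this).1
    have he' : ears n (T.image (rot n)) = {a, b - 1} := by
      ext w
      rw [mem_ears_rot hn hT, he]
      simp only [mem_insert, mem_singleton]
      omega
    obtain ⟨v, hv, h1⟩ := ih (b - 1) (T.image (rot n)) (T'.image (rot n)) hT.rot hT'.rot
      (rot_disjoint hT hT' hdis) (by omega) he'
    rw [mem_ears_rot hn hT'] at hv
    rcases hv with hv | hv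
    · exact ⟨v + 1, hv.2, by omega⟩
    · exact ⟨0, hv.2, by omega⟩

end Pool.Agent.Q151.Tri
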