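import Mathlib

/-!
# The upper bound, by counting ordered triples up to translation
-/

set_option autoImplicit false

namespace Q151.Tri

open Finset

theorem upper (n : ℕ) (A : Finset (ℤ × ℤ))
    (hA : A ⊆ Finset.Icc (1 : ℤ) n ×ˢ Finset.Icc (1 : ℤ) n)
    (hav : ¬ ∃ X : Finset (ℤ × ℤ), X.card = 3 ∧ ∃ k : Fin 3 → ℤ × ℤ, Function.Injective k ∧
      ∀ i, ∀ x ∈ X, x + k i ∈ A) : A.card ^ 3 ≤ 32 * n ^ 4 + 3 * A.card ^ 2 := by
  classical
  set T : Finset ((ℤ × ℤ) × (ℤ × ℤ) × (ℤ × ℤ)) :=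
    (A ×ˢ (A ×ˢ A)).filter (fun t => t.1 ≠ t.2.1 ∧ t.1 ≠ t.2.2 ∧ t.2.1 ≠ t.2.2) with hT
  have hcov : A ×ˢ (A ×ˢ A) ⊆ T ∪ (((A ×ˢ A).image (fun q => (q.1, q.1, q.2))) ∪
      (((A ×ˢ A).image (fun q => (q.1, q.2, q.1))) ∪
        ((A ×ˢ A).image (fun q => (q.1, q.2, q.2))))) := by
    rintro ⟨a, b, c⟩ h
    simp only [mem_product] at h
    obtain ⟨ha, hb, hc⟩ := h
    simp only [mem_union, mem_image, mem_product, hT, mem_filter, Prod.mk.injEq]
    by_cases h1 : a = b
    · right; left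
      exact ⟨(a, c), ⟨ha, hc⟩, rfl, h1, rfl⟩
    · by_cases h2 : a = c
      · right; right; left
        exact ⟨(a, b), ⟨ha, hb⟩, rfl, rfl, h2⟩
      · by_cases h3 : b = c
        · right; right; right
          exact ⟨(a, b), ⟨ha, hb⟩, rfl, rfl, h3⟩
        · left
          exact ⟨⟨ha, hb, hc⟩, h1, h2, h3⟩
  have hcard : A.card ^ 3 ≤ T.card + 3 * A.card ^ 2 := by
    have h1 := card_le_card hcov
    have h2 : (A ×ˢ (A ×ˢ A)).card = A.card ^ 3 := by
      rw [card_product, card_product]; ring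
    rw [h2] at h1
    have h3 := card_union_le T (((A ×ˢ A).image (fun q => (q.1, q.1, q.2))) ∪
      (((A ×ˢ A).image (fun q => (q.1, q.2, q.1))) ∪
        ((A ×ˢ A).image (fun q => (q.1, q.2, q.2)))))
    have h4 := card_union_le ((A ×ˢ A).image (fun q => (q.1, q.1, q.2)))
      (((A ×ˢ A).image (fun q => (q.1, q.2, q.1))) ∪
        ((A ×ˢ A).image (fun q => (q.1, q.2, q.2))))
    have h5 := card_union_le ((A ×ˢ A).image (fun q => (q.1, q.2, q.1)))
        ((A ×ˢ A).image (fun q => (q.1, q.2, q.2)))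
    have h6 : ((A ×ˢ A).image (fun q => (q.1, q.1, q.2))).card ≤ (A ×ˢ A).card := card_image_le
    have h7 : ((A ×ˢ A).image (fun q => (q.1, q.2, q.1))).card ≤ (A ×ˢ A).card := card_image_le
    have h8 : ((A ×ˢ A).image (fun q => (q.1, q.2, q.2))).card ≤ (A ×ˢ A).card := card_image_le
    have h9 : (A ×ˢ A).card = A.card ^ 2 := by rw [card_product]; ring
    omega
  set D : Finset (ℤ × ℤ) := Finset.Icc (-(n : ℤ)) (n - 1) ×ˢ Finset.Icc (-(n : ℤ)) (n - 1) with hD
  have hDcard : (D ×ˢ D).card = 16 * n ^ 4 := by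
    have h1 : (Finset.Icc (-(n : ℤ)) (n - 1)).card = 2 * n := by
      rw [Int.card_Icc]
      omega
    rw [hD, card_product, card_product, h1]
    ring
  have hmaps : ∀ t ∈ T, ((t.2.1 - t.1, t.2.2 - t.1) : (ℤ × ℤ) × (ℤ × ℤ)) ∈ D ×ˢ D := by
    rintro ⟨a, b, c⟩ h
    rw [hT, mem_filter] at h
    simp only [mem_product] at h
    obtain ⟨⟨ha, hb, hc⟩, -⟩ := h
    have h1 := hA ha
    have h2 := hA hb
    have h3 := hA hc
    simp only [mem_product, mem_Icc] at h1 h2 h3
    simp only [hD, mem_product, mem_Icc, Prod.fst_sub, Prod.snd_sub]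
    omega
  have hfib : ∀ d ∈ D ×ˢ D,
      (T.filter (fun t => ((t.2.1 - t.1, t.2.2 - t.1) : (ℤ × ℤ) × (ℤ × ℤ)) = d)).card ≤ 2 := by
    rintro ⟨d1, d2⟩ -
    by_contra hcon
    push Not at hcon
    rw [two_lt_card] at hcon
    obtain ⟨t, ht, t', ht', t'', ht'', h12, h13, h23⟩ := hcon
    apply hav
    have hdec : ∀ t ∈ T.filter (fun t => ((t.2.1 - t.1, t.2.2 - t.1) : (ℤ × ℤ) × (ℤ × ℤ)) =
        (d1, d2)), t = (t.1, d1 + t.1, d2 + t.1) ∧ t.1 ∈ A ∧ d1 + t.1 ∈ A ∧ d2 + t.1 ∈ A := by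
      rintro ⟨a, b, c⟩ h
      rw [mem_filter, hT, mem_filter] at h
      simp only [mem_product, Prod.mk.injEq] at h
      obtain ⟨⟨⟨ha, hb, hc⟩, -⟩, e1, e2⟩ := h
      have e1' : d1 + a = b := by rw [← e1]; abel
      have e2' : d2 + a = c := by rw [← e2]; abel
      simp only [e1', e2']
      exact ⟨trivial, ha, hb, hc⟩
    have hd0 : d1 ≠ 0 ∧ d2 ≠ 0 ∧ d1 ≠ d2 := by
      have h := ht
      rw [mem_filter, hT, mem_filter] at h
      obtain ⟨⟨_, g1, g2, g3⟩, e⟩ := h
      simp only [Prod.mk.injEq] at e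
      refine ⟨?_, ?_, ?_⟩
      · intro h0
        rw [h0] at e
        exact g1 (sub_eq_zero.1 e.1).symm
      · intro h0
        rw [h0] at e
        exact g2 (sub_eq_zero.1 e.2).symm
      · intro h0
        rw [h0, ← e.2] at e
        exact g3 (sub_left_injective e.1)
    refine ⟨{0, d1, d2}, ?_, ![t.1, t'.1, t''.1], ?_, ?_⟩
    · rw [card_eq_three]
      exact ⟨0, d1, d2, hd0.1.symm, hd0.2.1.symm, hd0.2.2, rfl⟩
    · have k12 : t.1 ≠ t'.1 := by
        intro h
        apply h12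
        rw [(hdec t ht).1, (hdec t' ht').1, h]
      have k13 : t.1 ≠ t''.1 := by
        intro h
        apply h13
        rw [(hdec t ht).1, (hdec t'' ht'').1, h]
      have k23 : t'.1 ≠ t''.1 := by
        intro h
        apply h23
        rw [(hdec t' ht').1, (hdec t'' ht'').1, h]
      intro i j hij
      fin_cases i <;> fin_cases j <;> simp at hij ⊢
      · exact k12 hij
      · exact k13 hij
      · exact k12 hij.symm
      · exact k23 hij
      · exact k13 hij.symm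
      · exact k23 hij.symm
    · intro i x hx
      simp only [mem_insert, mem_singleton] at hx
      have a1 := (hdec t ht).2
      have a2 := (hdec t' ht').2
      have a3 := (hdec t'' ht'').2
      rcases hx with rfl | rfl | rfl <;> fin_cases i <;> simp
      · exact a1.1
      · exact a2.1
      · exact a3.1
      · exact a1.2.1
      · exact a2.2.1
      · exact a3.2.1
      · exact a1.2.2
      · exact a2.2.2
      · exact a3.2.2
  have hT2 := card_le_mul_card_image_of_maps_to hmaps 2 hfib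
  rw [hDcard] at hT2
  omega

end Q151.Tri
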